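import Pool.Agent.W556.CupDefs
import Pool.Agent.W556.CupCycle
import Pool.Agent.W556.ImmDefs
import Pool.Agent.W556.TubeMfd

open scoped Manifold ContDiff ENNReal

namespace Pool.Agent.Results.MP_ecbb26_gt.TorusTube

open Pool.Agent.W556 Pool.Agent.W556.Tor Pool.Agent.W556.Tube

/-- the cup-length of `T^(q+1) × S^q` -/
theorem cupLength (q : ℕ) : CupLengthAtLeast ℝ (XX q) (q + 1) := by
  let u0 : Sp q := ⟨EuclideanSpace.single 0 1, by simp⟩
  let s : C(Fin (q + 1) → ℝ, XX q) :=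
    ⟨fun x => (pr (WithLp.toLp 2 x), u0), by
      have h1 : Continuous (fun x : Fin (q + 1) → ℝ => pr (WithLp.toLp 2 x)) :=
        covering.continuous.comp (PiLp.continuous_toLp 2 _)
      exact h1.prodMk continuous_const⟩
  let c0 : Fin (q + 1) → Tr (q + 1) → AddCircle (1 : ℝ) := fun j =>
    Quotient.lift (fun x : Eu (q + 1) => ((x j : ℝ) : AddCircle (1 : ℝ))) (by
      intro a b hab
      have h : -a + b ∈ lat (q + 1) := QuotientAddGroup.leftRel_apply.1 hab
      obtain ⟨k, hk⟩ := h j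
      have h1 : b j = a j + k := by
        rw [PiLp.add_apply, PiLp.neg_apply] at hk
        linarith
      change ((a j : ℝ) : AddCircle (1 : ℝ)) = ((b j : ℝ) : AddCircle (1 : ℝ))
      rw [h1, AddCircle.coe_add]
      have h2 : ((k : ℝ) : AddCircle (1 : ℝ)) = 0 := (AddCircle.coe_eq_zero_iff 1).2 ⟨k, by simp⟩
      rw [h2, add_zero])
  have hc0 : ∀ j, Continuous (c0 j) := fun j =>
    (covering.isQuotientMap pr_surj).continuous_iff.2
      ((AddCircle.continuous_mk' (p := (1 : ℝ))).comp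
        (EuclideanSpace.proj (𝕜 := ℝ) (ι := Fin (q + 1)) j).continuous)
  refine cupLength_of_torus s ?_ (fun j => ⟨fun x => c0 j x.1, (hc0 j).comp continuous_fst⟩) ?_
  · intro x j
    change ((pr _, u0) : XX q) = (pr _, u0)
    congr 1
    rw [pr_eq_iff]
    intro i
    refine ⟨if i = j then -1 else 0, ?_⟩
    by_cases h : i = j
    · subst h
      simp
    · simp [h]
  · intro j x
    rfl

/-- For every `c > 0` the inequality `curv ≥ c l² / (m k)` fails, even in codimension `k = 1`: there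
are a closed `m`-manifold `X` of cup-length at least `l` over `ℝ` and an immersion of `X` in the
closed unit ball of `ℝ^(m + k)` of curvature less than `c l² / (m k)`. The case `c = 0.1` is the
negation of the inequality in question. The manifold is `T^l × S^(l - 1)`, immersed as the boundary
of a tube around the Clifford torus in `ℝ^(2 l)`. -/
theorem result (c : ℝ) (hc : 0 < c) :
    ∃ m k l : ℕ, 1 ≤ m ∧ k = 1 ∧ 1 ≤ l ∧
      ∃ (V X : Type) (_ : NormedAddCommGroup V) (_ : NormedSpace ℝ V) (_ : TopologicalSpace X)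
        (_ : ChartedSpace V X),
        Module.finrank ℝ V = m ∧ IsManifold 𝓘(ℝ, V) ∞ X ∧ CompactSpace X ∧ T2Space X ∧
          CupLengthAtLeast ℝ X l ∧
          ∃ f : X → EuclideanSpace ℝ (Fin (m + k)), IsImmersion V f ∧ (∀ x, ‖f x‖ ≤ 1) ∧
            curvature V f < ENNReal.ofReal (c * l ^ 2 / (m * k)) := by
  obtain ⟨n, hn⟩ := exists_nat_gt (6 / c)
  -- `l = n ^ 2 + 1` is large enough
  have hn0 : (0 : ℝ) < n := lt_trans (by positivity) hn
  have hn1 : 1 ≤ n := by exact_mod_cast hn0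
  have hcn : 6 < c * n := by
    rw [div_lt_iff₀ hc] at hn
    linarith
  let q : ℕ := n ^ 2
  set l : ℕ := q + 1 with hl
  have hqn : (q : ℝ) = (n : ℝ) ^ 2 := by
    change ((n ^ 2 : ℕ) : ℝ) = _
    push_cast
    rfl
  have hq : (l : ℝ) = (n : ℝ) ^ 2 + 1 := by
    rw [hl, Nat.cast_add, Nat.cast_one, hqn]
  have hs : √(l : ℝ) ≤ n + 1 := by
    rw [Real.sqrt_le_left (by positivity), hq]
    nlinarith
  have hr0 : 0 < 1 / (2 * √(l : ℝ) + 1) := by positivity
  refine ⟨2 * q + 1, 1, l, by omega, rfl, by omega, VV q, XX q, inferInstance, inferInstance,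
    inferInstance, inferInstance, ?_, inferInstance, inferInstance, inferInstance, cupLength q,
    (data q).f (1 / (2 * √(l : ℝ) + 1)), (data q).immersion hr0,
    (data q).norm_le hr0 (by rw [one_div, inv_mul_cancel₀]; positivity), ?_⟩
  · have := (data q).dim
    omega
  · refine lt_of_le_of_lt ((data q).curvature_le hr0) ?_
    rw [one_div_one_div]
    rw [ENNReal.ofReal_lt_ofReal_iff_of_nonneg (by positivity)]
    have hm : ((2 * q + 1 : ℕ) : ℝ) * ((1 : ℕ) : ℝ) = 2 * (n : ℝ) ^ 2 + 1 := by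
      rw [Nat.cast_add, Nat.cast_mul, hqn]
      push_cast
      ring
    rw [hm, lt_div_iff₀ (by positivity)]
    have h1 : 2 * √(l : ℝ) + 1 ≤ 2 * n + 3 := by linarith
    have h2 : (2 * √(l : ℝ) + 1) * (2 * (n : ℝ) ^ 2 + 1) ≤ (2 * n + 3) * (2 * (n : ℝ) ^ 2 + 1) :=
      mul_le_mul_of_nonneg_right h1 (by positivity)
    rw [hq] at *
    have h3 : (n : ℝ) * ((2 * n + 3) * (2 * (n : ℝ) ^ 2 + 1)) < n * (c * ((n : ℝ) ^ 2 + 1) ^ 2) := by
      have h4 : (n : ℝ) * ((2 * n + 3) * (2 * (n : ℝ) ^ 2 + 1)) ≤ 6 * ((n : ℝ) ^ 2 + 1) ^ 2 := by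
        have h5 : 0 ≤ 2 * (n : ℝ) ^ 2 * ((n : ℝ) ^ 2 - 3 * n + 5) - 3 * n + 6 := by
          have h6 : (11 / 4 : ℝ) ≤ (n : ℝ) ^ 2 - 3 * n + 5 := by nlinarith [sq_nonneg ((n : ℝ) - 3 / 2)]
          have h7 : 2 * (n : ℝ) ^ 2 * (11 / 4) ≤ 2 * (n : ℝ) ^ 2 * ((n : ℝ) ^ 2 - 3 * n + 5) :=
            mul_le_mul_of_nonneg_left h6 (by positivity)
          nlinarith [sq_nonneg ((n : ℝ) - 1)]
        nlinarith
      have h8 : 6 * ((n : ℝ) ^ 2 + 1) ^ 2 < (c * n) * ((n : ℝ) ^ 2 + 1) ^ 2 :=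
        mul_lt_mul_of_pos_right hcn (by positivity)
      linarith
    have h9 := lt_of_mul_lt_mul_left h3 hn0.le
    linarith

end Pool.Agent.Results.MP_ecbb26_gt.TorusTube
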